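import Pool.Agent.Work.MP_418764_co.AFin

namespace Pool.Agent.Results.MP_418764_co.AllCycles
open Pool.Agent.Work.MP_418764_co

/-- For every `d ≥ 2` there are positive `m`, `n` such that `C_{2d+1}[K_m]` is a
counterexample to `H'(n)`: both `C_{2d+1}[K_m]` and `K_n^{C_{2d+1}[K_m]}` have chromatic number
larger than `n`. -/
theorem result : ∀ d : ℕ, 2 ≤ d → ∃ m n : ℕ, 0 < m ∧ 0 < n ∧
    (n : ℕ∞) < (lexK (SimpleGraph.cycleGraph (2 * d + 1)) m).chromaticNumber ∧
    (n : ℕ∞) < (expGraph (lexK (SimpleGraph.cycleGraph (2 * d + 1)) m) n).chromaticNumber := by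
  intro d hd
  obtain ⟨m, n, h1, h2, h3, h4⟩ := All.all_cycles d hd
  exact ⟨m, n, h1, h2, not_le.mp fun h => h3 (SimpleGraph.chromaticNumber_le_iff_colorable.mp h),
    not_le.mp fun h => h4 (SimpleGraph.chromaticNumber_le_iff_colorable.mp h)⟩

end Pool.Agent.Results.MP_418764_co.AllCycles
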